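import Pool.Agent.L7h24.EA.Loc

/-!
# Project EA, part N4
-/

set_option autoImplicit false

namespace Pool.Agent.L7h64.EA

open Pool.Agent.L7h19.EA Pool.Agent.L7h24.EA

section tools

variable {p : ℕ} [hp : Fact p.Prime]

/-- discreteness of the valuation -/
lemma VG_or {c : ℚ_[p]} {k : ℤ} (h : VG c k) : VG c (k + 1) ∨ VE c k := by
  by_cases hc : c = 0
  · left
    rw [hc]
    exact VG.zero _
  · have h1 := VE.of_ne hc
    have h2 := h.le_of_VE h1
    rcases h2.lt_or_eq with h3 | h3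
    · exact Or.inl (h1.ge.mono (by omega))
    · right
      rw [h3]
      exact h1

/-- near elements have the same class -/
lemma near (h2 : p ≠ 2) {u x : ℚ_[p]} {k : ℤ} (hu : VE u k) (hx : VG (x - u) (k + 1)) :
    IsSquare (u * x) := by
  have h1 : IsSquare (u * u + u * (x - u)) :=
    (dom h2 (hu.mul hu) ((hu.ge.mul hx).mono (by omega))).2 ⟨u, rfl⟩
  have e : u * u + u * (x - u) = u * x := by ring
  rwa [e] at h1

/-- square roots of units near `1` -/
lemma sqrt_near (h2 : p ≠ 2) {e : ℚ_[p]} (he : VG e 1) : ∃ s : ℚ_[p], s * s = 1 + e ∧ VG (s - 1) 1 := by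
  obtain ⟨s, hs⟩ := sq_one h2 (u := 1 + e) (by rwa [add_sub_cancel_left])
  by_cases h : VG (s - 1) 1
  · exact ⟨s, hs.symm, h⟩
  · have hs1 : s - 1 ≠ 0 := by
      intro h0
      apply h
      rw [h0]
      exact VG.zero _
    have hm := VE.of_ne hs1
    have hm1 : ¬ (1 ≤ (s - 1).valuation) := fun h3 => h (hm.ge.mono h3)
    refine ⟨-s, by rw [hs]; ring, ?_⟩
    have h4 : -s - 1 = -(e * (s - 1)⁻¹) := by
      field_simp
      linear_combination hs
    rw [h4]
    exact ((he.mul hm.inv.ge).mono (by omega)).neg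

lemma VE_two (h2 : p ≠ 2) : VE (2 : ℚ_[p]) 0 := by
  have h5 : VE ((2 : ℤ) : ℚ_[p]) 0 := VE_unit (by
    intro h
    have h6 : p ∣ 2 := by exact_mod_cast h
    exact h2 ((Nat.prime_dvd_prime_iff_eq hp.out Nat.prime_two).1 h6))
  exact_mod_cast h5

/-- `a x²` and `b x` cancel -/
lemma quad_cancel (h2 : p ≠ 2) {a b : ℤ} {x : ℚ_[p]} {v α β : ℤ} (h : Pt p a b x) (hv : VE x v)
    (ha : VE (a : ℚ_[p]) α) (hb : VE (b : ℚ_[p]) β) (e : v + α = β) (c1 : β + 1 ≤ 2 * v)
    (ho : Odd (v + β)) : IsSquare (-((a : ℚ_[p]) * b) * x) := by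
  obtain ⟨hx, y, hy⟩ := h
  have hc : VG ((a : ℚ_[p]) * x + (b : ℚ_[p])) β := ((ha.mul hv).ge.mono (by omega)).add hb.ge
  rcases VG_or hc with h3 | h3
  · have hu : VE (-((b : ℚ_[p]) * (a : ℚ_[p])⁻¹)) (β - α) := (hb.mul ha.inv).neg
    have h4 : VG (x - (-((b : ℚ_[p]) * (a : ℚ_[p])⁻¹))) (β - α + 1) := by
      have h5 : x - (-((b : ℚ_[p]) * (a : ℚ_[p])⁻¹)) = ((a : ℚ_[p]) * x + b) * (a : ℚ_[p])⁻¹ := by
        have := ha.ne_zero
        field_simp
        ring
      rw [h5]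
      exact (h3.mul ha.inv.ge).mono (by omega)
    have h6 := near h2 hu h4
    have h7 : -((a : ℚ_[p]) * b) * x = (a * a) * (-((b : ℚ_[p]) * (a : ℚ_[p])⁻¹) * x) := by
      have := ha.ne_zero
      field_simp
    rw [h7]
    exact (sq_mul_left ⟨_, rfl⟩ (mul_ne_zero ha.ne_zero ha.ne_zero)).2 h6
  · exfalso
    have h4 : IsSquare (x * ((a : ℚ_[p]) * x + (b : ℚ_[p])) + x ^ 3) := ⟨y, by rw [← pow_two, hy]; ring⟩
    have h5 := (dom h2 (hv.mul h3) ((hv.pow 3).ge.mono (by push_cast; omega))).1 h4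
    have h6 := even_of_sq (hv.mul h3) h5
    rw [Int.even_iff] at h6
    rw [Int.odd_iff] at ho
    omega

/-- `x³` and `a x²` cancel -/
lemma cube_cancel (h2 : p ≠ 2) {a b : ℤ} {x : ℚ_[p]} {α : ℤ} (h : Pt p a b x) (hv : VE x α)
    (ha : VE (a : ℚ_[p]) α) (hb : VG (b : ℚ_[p]) (2 * α + 1)) (ho : Odd α) :
    IsSquare (-(a : ℚ_[p]) * x) := by
  obtain ⟨hx, y, hy⟩ := h
  have hc : VG (x + (a : ℚ_[p])) α := hv.ge.add ha.ge
  rcases VG_or hc with h3 | h3
  · exact near h2 ha.neg (by rwa [sub_neg_eq_add])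
  · exfalso
    have h4 : IsSquare (x ^ 2 * (x + (a : ℚ_[p])) + (b : ℚ_[p]) * x) := ⟨y, by rw [← pow_two, hy]; ring⟩
    have h5 := (dom h2 ((hv.pow 2).mul h3) ((hb.mul hv.ge).mono (by push_cast; omega))).1 h4
    have h6 := even_of_sq ((hv.pow 2).mul h3) h5
    rw [Int.even_iff] at h6
    rw [Int.odd_iff] at ho
    push_cast at h6
    omega

lemma sq_true (h2 : p ≠ 2) {n : ℤ} (hn : ¬ (p : ℤ) ∣ n) : Pool.Agent.L7h19.EA.sq p n = true ↔ IsSquare (n : ℚ_[p]) := by
  rw [isSquare_int h2 hn]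
  unfold Pool.Agent.L7h19.EA.sq
  simp

/-- the last step: the sign -/
lemma sign_end (h2 : p ≠ 2) {A : ℤ} {x : ℚ_[p]} (hA : ¬ (p : ℤ) ∣ A) (hx : x ≠ 0)
    (h : IsSquare ((A : ℚ_[p]) * p * x)) : IsSquare (x * p) ↔ (!Pool.Agent.L7h19.EA.sq p A) = false := by
  have h4 : IsSquare ((A : ℚ_[p]) * (x * p)) := by
    have e : (A : ℚ_[p]) * p * x = (A : ℚ_[p]) * (x * p) := by ring
    rwa [e] at h
  have hA0 := (VE_unit (p := p) hA).ne_zero
  rw [← sq_iff_of_mul h4 hA0 (mul_ne_zero hx VE.prime.ne_zero), isSquare_int h2 hA]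
  unfold Pool.Agent.L7h19.EA.sq
  simp

/-- the square class of `p ^ k u` for even `k` -/
lemma sq_even_pow {k : ℕ} (hk : Even k) (u : ℚ_[p]) :
    IsSquare ((p : ℚ_[p]) ^ k * u) ↔ IsSquare u := by
  obtain ⟨m, rfl⟩ := hk
  have hp0 : (p : ℚ_[p]) ≠ 0 := VE.prime.ne_zero
  exact sq_mul_left ⟨(p : ℚ_[p]) ^ m, by rw [pow_add]⟩ (pow_ne_zero _ hp0)

lemma up_spec {n : ℤ} (hn : n ≠ 0) :
    n = (p : ℤ) ^ padicValInt p n * up p n ∧ ¬ (p : ℤ) ∣ up p n := by
  have h1 : (p : ℤ) ^ padicValInt p n ∣ n := padicValInt_dvd n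
  have h3 : n = (p : ℤ) ^ padicValInt p n * up p n := by
    unfold up
    rw [Int.mul_ediv_cancel' h1]
  refine ⟨h3, ?_⟩
  intro h4
  have h5 : (p : ℤ) ^ (padicValInt p n + 1) ∣ n := by
    rw [pow_succ]
    conv_rhs => rw [h3]
    exact mul_dvd_mul_left _ h4
  have h6 := (VG_dvd (p := p) h5).le_of_VE (VE_padicValInt hn)
  push_cast at h6
  omega

end tools

theorem s_N4 : S_N4 := by
  intro p hp a b h2 hb0 hpa hpa2 hpb
  have ha : VE (a : ℚ_[p]) 1 := by
    have := VE_int (p := p) (n := a) (k := 1) (by simpa using hpa) hpa2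
    exact_mod_cast this
  set β := padicValInt p b with hβ
  have hb : VE (b : ℚ_[p]) β := VE_padicValInt hb0
  have hβ3 : (3 : ℤ) ≤ β := by
    have := (VG_dvd (p := p) hpb).le_of_VE hb
    exact_mod_cast this
  obtain ⟨a1, rfl⟩ := hpa
  have hpz : (p : ℤ) ≠ 0 := by exact_mod_cast hp.out.ne_zero
  have hp0 : (p : ℚ_[p]) ≠ 0 := VE.prime.ne_zero
  rw [Int.mul_ediv_cancel_left _ hpz]
  have ha1 : ¬ (p : ℤ) ∣ a1 := by
    intro h
    apply hpa2
    rw [pow_two]
    exact mul_dvd_mul_left _ h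
  obtain ⟨hbe, hb1⟩ := up_spec (p := p) hb0
  rw [← hβ] at hbe
  set b1 := up p b with hb1d
  have hab1 : ¬ (p : ℤ) ∣ -a1 * b1 := by
    intro h
    rcases (Nat.prime_iff_prime_int.1 hp.out).dvd_or_dvd h with h | h
    · exact ha1 ((dvd_neg).1 h)
    · exact hb1 h
  have hna1 : ¬ (p : ℤ) ∣ -a1 := fun h => ha1 ((dvd_neg).1 h)
  have hbQ : (b : ℚ_[p]) = (p : ℚ_[p]) ^ β * (b1 : ℚ_[p]) := by
    have := congrArg (fun n : ℤ => (n : ℚ_[p])) hbe
    push_cast at this
    exact this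
  have hb0Q : (b : ℚ_[p]) ≠ 0 := hb.ne_zero
  have ha0Q : (((p : ℤ) * a1 : ℤ) : ℚ_[p]) ≠ 0 := ha.ne_zero
  have haQ : (((p : ℤ) * a1 : ℤ) : ℚ_[p]) = (p : ℚ_[p]) * a1 := by push_cast; ring
  -- the classes if row
  have fO : Odd β → Pool.Agent.L7h19.EA.sq p (-a1 * b1) = true →
      IsSquare (-((((p : ℤ) * a1 : ℤ) : ℚ_[p]) * b)) := by
    intro h1 h3
    rw [sq_true h2 hab1] at h3
    have e : -((((p : ℤ) * a1 : ℤ) : ℚ_[p]) * b) =
        (p : ℚ_[p]) ^ (β + 1) * (((-a1 * b1 : ℤ)) : ℚ_[p]) := by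
      rw [hbQ]
      push_cast
      ring
    rw [e, sq_even_pow (h1.add_odd odd_one)]
    exact h3
  have fE : ¬ Odd β → Pool.Agent.L7h19.EA.sq p b1 = true → IsSquare (b : ℚ_[p]) := by
    intro h1 h3
    rw [sq_true h2 hb1] at h3
    rw [hbQ, sq_even_pow (Nat.not_odd_iff_even.1 h1)]
    exact h3
  refine ⟨⟨fun _ => rfl, fun _ => ?_⟩, ?_, ?_⟩
  · -- a root
    have he : VG (-(4 * (b : ℚ_[p])) * ((((p : ℤ) * a1 : ℤ) : ℚ_[p]) * (((p : ℤ) * a1 : ℤ) : ℚ_[p]))⁻¹) 1 := by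
      have h4 : VG (4 : ℚ_[p]) 0 := by
        have := VG_int (p := p) 4
        exact_mod_cast this
      exact (((h4.mul hb.ge).neg).mul (ha.mul ha).inv.ge).mono (by omega)
    obtain ⟨s, hs, hs1⟩ := sqrt_near h2 he
    have hv : VE (-1 - s) 0 := by
      have h5 : VE (-(2 : ℚ_[p]) + -(s - 1)) 0 := (VE_two h2).neg.add_small (hs1.neg)
      have e : -(2 : ℚ_[p]) + -(s - 1) = -1 - s := by ring
      rwa [e] at h5
    have hx : VE ((((p : ℤ) * a1 : ℤ) : ℚ_[p]) * (-1 - s) * (2 : ℚ_[p])⁻¹) (1 + 0 + -0) :=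
      (ha.mul hv).mul (VE_two h2).inv
    refine ⟨inferInstance, _, ⟨hx.ne_zero, 0, ?_⟩, ?_⟩
    · have h20 : (2 : ℚ_[p]) ≠ 0 := (VE_two h2).ne_zero
      have h6 : s * s * ((((p : ℤ) * a1 : ℤ) : ℚ_[p]) * (((p : ℤ) * a1 : ℤ) : ℚ_[p])) =
          (((p : ℤ) * a1 : ℤ) : ℚ_[p]) * (((p : ℤ) * a1 : ℤ) : ℚ_[p]) - 4 * b := by
        rw [hs]
        field_simp
        ring
      have h7 : ((((p : ℤ) * a1 : ℤ) : ℚ_[p]) * (-1 - s) * (2 : ℚ_[p])⁻¹) ^ 2 +
          (((p : ℤ) * a1 : ℤ) : ℚ_[p]) * ((((p : ℤ) * a1 : ℤ) : ℚ_[p]) * (-1 - s) * (2 : ℚ_[p])⁻¹) +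
            (b : ℚ_[p]) = 0 := by
        field_simp
        linear_combination h6
      rw [h7]
      ring
    · rw [hx.val]
      decide
  · intro x hx he hr
    have hv := VE.of_ne hx.1
    rw [Int.even_iff] at he
    rcases le_or_gt x.valuation 0 with h | h
    · exact pt_cub h2 hx hv ha.ge hb.ge (by omega) (by omega)
    · rcases lt_trichotomy x.valuation ((β : ℤ) - 1) with h3 | h3 | h3
      · exfalso
        have := even_of_sq ha (pt_quad h2 hx hv ha hb.ge (by omega) (by omega))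
        exact absurd this (by decide)
      · have hodd : Odd β := by
          rw [Nat.odd_iff]
          omega
        rw [if_pos hodd] at hr
        have h4 := quad_cancel h2 hx hv ha hb (by omega) (by omega)
          (by rw [Int.odd_iff]; omega)
        exact (sq_mul_left (fO hodd hr) (neg_ne_zero.2 (mul_ne_zero ha0Q hb0Q))).1 h4
      · have h4 := pt_lin h2 hx hv ha.ge hb (by omega) (by omega)
        have h5 := even_of_sq (hb.mul hv) h4
        rw [Int.even_iff] at h5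
        have hodd : ¬ Odd β := by
          rw [Nat.odd_iff]
          omega
        rw [if_neg hodd] at hr
        exact (sq_mul_left (fE hodd hr) hb0Q).1 h4
  · intro x hx ho hr _
    have hv := VE.of_ne hx.1
    rw [Int.odd_iff] at ho
    have key : IsSquare (-(((p : ℤ) * a1 : ℤ) : ℚ_[p]) * x) := by
      rcases lt_trichotomy x.valuation 1 with h | h | h
      · exfalso
        have := even_of_sq hv (pt_cub h2 hx hv ha.ge hb.ge (by omega) (by omega))
        rw [Int.even_iff] at this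
        omega
      · rw [h] at hv
        exact cube_cancel h2 hx hv ha (hb.ge.mono (by omega)) odd_one
      · rcases lt_trichotomy x.valuation ((β : ℤ) - 1) with h3 | h3 | h3
        · exfalso
          have := even_of_sq ha (pt_quad h2 hx hv ha hb.ge (by omega) (by omega))
          exact absurd this (by decide)
        · have hodd : ¬ Odd β := by
            rw [Nat.odd_iff]
            omega
          rw [if_neg hodd] at hr
          have h4 := quad_cancel h2 hx hv ha hb (by omega) (by omega)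
            (by rw [Int.odd_iff]; omega)
          have e : -((((p : ℤ) * a1 : ℤ) : ℚ_[p]) * b) * x =
              b * (-(((p : ℤ) * a1 : ℤ) : ℚ_[p]) * x) := by ring
          rw [e] at h4
          exact (sq_mul_left (fE hodd hr) hb0Q).1 h4
        · have h4 := pt_lin h2 hx hv ha.ge hb (by omega) (by omega)
          have h5 := even_of_sq (hb.mul hv) h4
          rw [Int.even_iff] at h5
          have hodd : Odd β := by
            rw [Nat.odd_iff]
            omega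
          rw [if_pos hodd] at hr
          have h6 := (fO hodd hr).mul h4
          have e : -((((p : ℤ) * a1 : ℤ) : ℚ_[p]) * b) * (b * x) =
              (b * b) * (-(((p : ℤ) * a1 : ℤ) : ℚ_[p]) * x) := by ring
          rw [e] at h6
          exact (sq_mul_left ⟨_, rfl⟩ (mul_ne_zero hb0Q hb0Q)).1 h6
    refine sign_end h2 hna1 hx.1 ?_
    have e : ((-a1 : ℤ) : ℚ_[p]) * p * x = -(((p : ℤ) * a1 : ℤ) : ℚ_[p]) * x := by
      push_cast
      ring
    rw [e]
    exact key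

end Pool.Agent.L7h64.EA
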